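import Pool.Agent.Helper49.GL.Q10
import Pool.Agent.Helper49.GL.R4

namespace Pool.Agent.Results.MP_274814_nt.TuplesUpToComplexity

/-- The vector `(π, Γ(a_1/q_1), ..., Γ(a_k/q_k))`; the coordinate `none` is `π`. -/
noncomputable def vals {k : ℕ} (q a : Fin k → ℕ) : Option (Fin k) → ℝ
  | none => Real.pi
  | some i => Real.Gamma ((a i : ℝ) / (q i : ℝ))

/-- For every `k` there are `C, κ, σ > 0` such that for all denominators `q_1, ..., q_k` between
`L` and `U` and every complexity `N`, the number of tuples `(a_1, ..., a_k)`, `1 ≤ a_i < q_i`, for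
which some nonzero polynomial `P` with integer coefficients of absolute value at most `exp N` and
of total degree at most `N` satisfies `|P(π, Γ(a_1/q_1), ..., Γ(a_k/q_k))| < exp (-C (N + log U)^κ)`
is at most `C (N + log U)^κ q_1 ⋯ q_k / L^σ`. -/
theorem result (k : ℕ) :
    ∃ C κ σ : ℝ, 0 < C ∧ 0 < κ ∧ 0 < σ ∧
      ∀ (q : Fin k → ℕ) (L U N : ℕ), 1 ≤ L → 1 ≤ U → 1 ≤ N →
        (∀ i, 2 ≤ q i ∧ L ≤ q i ∧ q i ≤ U) →
        (Set.ncard {a : Fin k → ℕ | (∀ i, 1 ≤ a i ∧ a i < q i) ∧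
          ∃ P : MvPolynomial (Option (Fin k)) ℤ, P ≠ 0 ∧ P.totalDegree ≤ N ∧
            (∀ s, |((P.coeff s : ℤ) : ℝ)| ≤ Real.exp N) ∧
            |MvPolynomial.aeval (vals q a) P|
              < Real.exp (-(C * (N + Real.log U) ^ κ))} : ℝ)
        ≤ C * (N + Real.log U) ^ κ * ((∏ i, (q i : ℝ)) * (L : ℝ) ^ (-σ)) := by
  classical
  obtain ⟨C, κ, σ, hC, hκ, hσ, H⟩ := GLR.final_piq GLR.polyMeas_pi k
  refine ⟨C, κ, σ, hC, hκ, hσ, fun q L U N hL hU hN hq => ?_⟩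
  have h := H q L U N hN hL hU (fun i => (hq i).1) (fun i => (hq i).2.1) (fun i => (hq i).2.2)
  have hv : ∀ a : Fin k → ℕ, vals q a = GLR.gval q a := by
    intro a
    funext o
    cases o <;> rfl
  refine le_trans ?_ h
  rw [Nat.cast_le, ← Set.ncard_coe_finset]
  refine Set.ncard_le_ncard ?_ (Finset.finite_toSet _)
  rintro a ⟨ha, P, hP, hdeg, hc, hlt⟩
  rw [Finset.mem_coe, Finset.mem_filter, Fintype.mem_piFinset]
  refine ⟨fun i => Finset.mem_Ico.mpr (ha i), P, hP, hdeg, hc, ?_⟩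
  rw [← hv a]
  exact hlt

end Pool.Agent.Results.MP_274814_nt.TuplesUpToComplexity
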